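import Pool.Agent.helper60.DB.SpecI

/-!
# DB, row LT: the operator `Lam` and the operator `Lop`
-/

set_option autoImplicit false

namespace Pool.Agent.helper60.DB

open Polynomial Finset Pool.Agent.helper60.DK

section

variable {R : Type*} [CommRing R]

theorem LT_th_add (f g : R[X]) : th (f + g) = th f + th g := by
  unfold th
  rw [derivative_add]
  ring

theorem LT_th_mul (f g : R[X]) : th (f * g) = th f * g + f * th g := by
  unfold th
  rw [derivative_mul]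
  ring

theorem LT_th_C_mul (c : R) (f : R[X]) : th (C c * f) = C c * th f := by
  unfold th
  rw [derivative_C_mul]
  ring

theorem LT_Lam_add (P : R) (f g : R[X]) : Lam P (f + g) = Lam P f + Lam P g := by
  unfold Lam
  rw [LT_th_add, LT_th_add, LT_th_add]
  ring

theorem LT_Lam_C_mul (P c : R) (f : R[X]) : Lam P (C c * f) = C c * Lam P f := by
  unfold Lam
  rw [LT_th_C_mul, LT_th_C_mul, LT_th_C_mul]
  ring

theorem LT_Lam_zero (P : R) : Lam P (0 : R[X]) = 0 := by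
  have h := LT_Lam_C_mul P 0 (0 : R[X])
  rwa [C_0, zero_mul, zero_mul] at h

theorem LT_Lam_sum (P : R) {ι : Type*} (s : Finset ι) (f : ι → R[X]) :
    Lam P (∑ i ∈ s, f i) = ∑ i ∈ s, Lam P (f i) := by
  classical
  induction s using Finset.induction_on with
  | empty => rw [sum_empty, sum_empty, LT_Lam_zero]
  | insert a s ha ih => rw [sum_insert ha, sum_insert ha, LT_Lam_add, ih]

theorem LT_pow (a : R[X]) (i : ℕ) :
    a * derivative (a ^ i) = C (i : R) * (a ^ i * derivative a) := by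
  rcases i with _ | i
  · simp
  · rw [derivative_pow, Nat.add_sub_cancel, pow_succ]
    ring

theorem LT_da : derivative (X ^ 2 - 1 : R[X]) = 2 * X := by
  rw [derivative_sub, derivative_X_sq, derivative_one, sub_zero]
  rfl

theorem LT_db : derivative (4 - X ^ 2 : R[X]) = -(2 * X) := by
  rw [derivative_sub, derivative_X_sq, derivative_ofNat, zero_sub]
  rfl

theorem LT_tau (i d : ℕ) : th ((X ^ 2 - 1) ^ i * (4 - X ^ 2) ^ d : R[X]) =
    (2 * X * (C (d : R) * (X ^ 2 - 1) - C (i : R) * (4 - X ^ 2))) *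
      ((X ^ 2 - 1) ^ i * (4 - X ^ 2) ^ d) := by
  have hA := LT_pow (X ^ 2 - 1 : R[X]) i
  have hB := LT_pow (4 - X ^ 2 : R[X]) d
  rw [LT_da] at hA
  rw [LT_db] at hB
  unfold th ww
  rw [derivative_mul]
  linear_combination (-((4 - X ^ 2) * (4 - X ^ 2) ^ d)) * hA +
    (-((X ^ 2 - 1) ^ i * (X ^ 2 - 1))) * hB

/-- a function with `th f = l * f` -/
theorem LT_exp (P : R) (f l : R[X]) (hf : th f = l * f) :
    Lam P f = (l ^ 3 + 3 * l * th l + th (th l) + A1 P * (l ^ 2 + th l) + A2 P * l + A3 P) * f := by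
  unfold Lam
  have h2 : th (th f) = (l ^ 2 + th l) * f := by
    rw [hf, LT_th_mul, hf]
    ring
  have h3 : th (th (th f)) = (l ^ 3 + 3 * l * th l + th (th l)) * f := by
    rw [h2, LT_th_mul, hf, LT_th_add, pow_two, LT_th_mul]
    ring
  rw [h3, h2, hf]
  ring

theorem LT_main (i h : R) : let l : R[X] := 6 * X * (C h * (X ^ 2 - 1) - C i)
    l ^ 3 + 3 * l * th l + th (th l) + A1 (2 * h + 1) * (l ^ 2 + th l) + A2 (2 * h + 1) * l +
      A3 (2 * h + 1) =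
    -2 * X * (C (4 * i ^ 3) * (4 - X ^ 2) ^ 3
      + C (24 * i ^ 3 + 36 * i ^ 2 + 24 * i + 6) * (X ^ 2 - 1) * (4 - X ^ 2) ^ 2
      + C (36 * i ^ 3 + 108 * i ^ 2 + 123 * i + 51) * (X ^ 2 - 1) ^ 2 * (4 - X ^ 2)
      + C (16 * i ^ 3 + 72 * i ^ 2 + 108 * i + 54) * (X ^ 2 - 1) ^ 3) := by
  intro l
  have h1 : th l = (X ^ 4 - 5 * X ^ 2 + 4) * (18 * C h * X ^ 2 - 6 * C h - 6 * C i) := by
    unfold th ww
    simp only [l, derivative_mul, derivative_sub, derivative_X_sq, derivative_one, derivative_C,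
      derivative_X, derivative_ofNat]
    simp only [map_ofNat]
    ring
  have h2 : th (th l) = (X ^ 4 - 5 * X ^ 2 + 4) * ((4 * X ^ 3 - 10 * X) *
      (18 * C h * X ^ 2 - 6 * C h - 6 * C i) + (X ^ 4 - 5 * X ^ 2 + 4) * (36 * C h * X)) := by
    rw [h1]
    unfold th ww
    simp only [derivative_mul, derivative_sub, derivative_add, derivative_X_pow, derivative_C,
      derivative_ofNat]
    simp only [Nat.cast_ofNat, map_ofNat]
    ring
  rw [h2, h1]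
  simp only [l, A1, A2, A3, ww, map_mul, map_add, map_pow, map_ofNat, map_one, map_neg]
  ring

end

/-! ### the right side -/

theorem LT_hm_add (d : ℕ) (f g : ℤ[X]) : DA.hm d (f + g) = DA.hm d f + DA.hm d g := by
  unfold DA.hm
  rw [← sum_add_distrib]
  refine sum_congr rfl fun i _ => ?_
  rw [coeff_add, C_add, add_mul]

theorem LT_hm_C_mul (d : ℕ) (c : ℤ) (f : ℤ[X]) : DA.hm d (C c * f) = C c * DA.hm d f := by
  unfold DA.hm
  rw [mul_sum]
  refine sum_congr rfl fun i _ => ?_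
  rw [coeff_C_mul, C_mul, mul_assoc]

theorem LT_hm_zero (d : ℕ) : DA.hm d (0 : ℤ[X]) = 0 := by
  have h := LT_hm_C_mul d 0 (0 : ℤ[X])
  rwa [C_0, zero_mul, zero_mul] at h

theorem LT_hm_sum (d : ℕ) {ι : Type*} (s : Finset ι) (f : ι → ℤ[X]) :
    DA.hm d (∑ i ∈ s, f i) = ∑ i ∈ s, DA.hm d (f i) := by
  classical
  induction s using Finset.induction_on with
  | empty => rw [sum_empty, sum_empty, LT_hm_zero]
  | insert a s ha ih => rw [sum_insert ha, sum_insert ha, LT_hm_add, ih]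

theorem LT_hm_mon (d j : ℕ) (hj : j ≤ d) :
    DA.hm d (X ^ j : ℤ[X]) = (X ^ 2 - 1) ^ j * (4 - X ^ 2) ^ (d - j) := by
  unfold DA.hm
  rw [sum_eq_single j]
  · rw [coeff_X_pow, if_pos rfl, C_1, one_mul]
  · intro i _ hi
    rw [coeff_X_pow, if_neg hi, C_0, zero_mul]
  · intro h
    exact absurd (mem_range.2 (Nat.lt_succ_of_le hj)) h

theorem LT_d1 (i : ℕ) : X * derivative (X ^ i : ℤ[X]) = C (i : ℤ) * X ^ i := by
  have h := LT_pow (X : ℤ[X]) i
  rwa [derivative_X, mul_one] at h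

theorem LT_d2 (i : ℕ) : X ^ 2 * derivative (derivative (X ^ i : ℤ[X])) =
    C ((i : ℤ) * (i - 1)) * X ^ i := by
  have h1 := LT_d1 i
  have h2 := congrArg derivative h1
  rw [derivative_mul, derivative_X, one_mul, derivative_C_mul] at h2
  have h3 := congrArg (fun f => X * f) h2
  simp only [C_mul, C_sub, C_1] at h3 ⊢
  linear_combination h3 + (C (i : ℤ) - 1) * h1

theorem LT_d3 (i : ℕ) : X ^ 3 * derivative (derivative (derivative (X ^ i : ℤ[X]))) =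
    C ((i : ℤ) * (i - 1) * (i - 2)) * X ^ i := by
  have h1 := LT_d1 i
  have h2 := LT_d2 i
  have h3 := congrArg derivative h2
  rw [derivative_mul, derivative_X_sq, derivative_C_mul] at h3
  have h4 := congrArg (fun f => X * f) h3
  simp only [C_mul, C_sub, C_1, map_ofNat] at h4 h2 ⊢
  linear_combination h4 + (C (i : ℤ) * (C (i : ℤ) - 1)) * h1 - 2 * h2

theorem LT_lop (i : ℕ) : X * Lop (X ^ i : ℤ[X]) =
    C (4 * (i : ℤ) ^ 3) * X ^ i
      + C (24 * (i : ℤ) ^ 3 + 36 * (i : ℤ) ^ 2 + 24 * i + 6) * X ^ (i + 1)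
      + C (36 * (i : ℤ) ^ 3 + 108 * (i : ℤ) ^ 2 + 123 * i + 51) * X ^ (i + 2)
      + C (16 * (i : ℤ) ^ 3 + 72 * (i : ℤ) ^ 2 + 108 * i + 54) * X ^ (i + 3) := by
  have h1 := LT_d1 i
  have h2 := LT_d2 i
  have h3 := LT_d3 i
  unfold Lop
  simp only [C_mul, C_sub, C_add, C_pow, C_1, map_ofNat] at h1 h2 h3 ⊢
  linear_combination 4 * (1 + X) ^ 2 * (1 + 4 * X) * h3 +
    (12 * (1 + X) ^ 2 * (1 + 4 * X) + 36 * X * (1 + X) * (1 + 2 * X)) * h2 +
    (4 + 84 * X + 267 * X ^ 2 + 196 * X ^ 3) * h1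

theorem LT_rhs (h i : ℕ) (hi : i ≤ 3 * h) : (X ^ 2 - 1) * DA.hm (3 * h + 2) (Lop (X ^ i : ℤ[X])) =
    (C (4 * (i : ℤ) ^ 3) * (4 - X ^ 2) ^ 3
      + C (24 * (i : ℤ) ^ 3 + 36 * (i : ℤ) ^ 2 + 24 * i + 6) * (X ^ 2 - 1) * (4 - X ^ 2) ^ 2
      + C (36 * (i : ℤ) ^ 3 + 108 * (i : ℤ) ^ 2 + 123 * i + 51) * (X ^ 2 - 1) ^ 2 * (4 - X ^ 2)
      + C (16 * (i : ℤ) ^ 3 + 72 * (i : ℤ) ^ 2 + 108 * i + 54) * (X ^ 2 - 1) ^ 3) *
      ((X ^ 2 - 1) ^ i * (4 - X ^ 2) ^ (3 * h - i)) := by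
  obtain ⟨d, hd⟩ := Nat.exists_eq_add_of_le hi
  have hl := LT_lop i
  rcases i with _ | k
  · have h1 : Lop (X ^ 0 : ℤ[X]) = C 6 * X ^ 0 + C 51 * X ^ 1 + C 54 * X ^ 2 := by
      apply mul_left_cancel₀ (X_ne_zero : (X : ℤ[X]) ≠ 0)
      rw [hl]
      simp only [Nat.cast_zero, C_mul, C_add, C_pow, C_0, map_ofNat]
      ring
    rw [h1, LT_hm_add, LT_hm_add, LT_hm_C_mul, LT_hm_C_mul, LT_hm_C_mul, LT_hm_mon _ 0 (by omega),
      LT_hm_mon _ 1 (by omega), LT_hm_mon _ 2 (by omega)]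
    have e0 : 3 * h + 2 - 0 = d + 2 := by omega
    have e1 : 3 * h + 2 - 1 = d + 1 := by omega
    have e2 : 3 * h + 2 - 2 = d := by omega
    have e3 : 3 * h - 0 = d := by omega
    rw [e0, e1, e2, e3]
    simp only [Nat.cast_zero, C_mul, C_add, C_pow, C_0, map_ofNat]
    ring
  · have h1 : Lop (X ^ (k + 1) : ℤ[X]) = C (4 * ((k + 1 : ℕ) : ℤ) ^ 3) * X ^ k
        + C (24 * ((k + 1 : ℕ) : ℤ) ^ 3 + 36 * ((k + 1 : ℕ) : ℤ) ^ 2 + 24 * ((k + 1 : ℕ) : ℤ) + 6) *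
          X ^ (k + 1)
        + C (36 * ((k + 1 : ℕ) : ℤ) ^ 3 + 108 * ((k + 1 : ℕ) : ℤ) ^ 2 + 123 * ((k + 1 : ℕ) : ℤ)
          + 51) * X ^ (k + 2)
        + C (16 * ((k + 1 : ℕ) : ℤ) ^ 3 + 72 * ((k + 1 : ℕ) : ℤ) ^ 2 + 108 * ((k + 1 : ℕ) : ℤ)
          + 54) * X ^ (k + 3) := by
      apply mul_left_cancel₀ (X_ne_zero : (X : ℤ[X]) ≠ 0)
      rw [hl]
      ring
    rw [h1, LT_hm_add, LT_hm_add, LT_hm_add, LT_hm_C_mul, LT_hm_C_mul, LT_hm_C_mul, LT_hm_C_mul,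
      LT_hm_mon _ k (by omega), LT_hm_mon _ (k + 1) (by omega), LT_hm_mon _ (k + 2) (by omega),
      LT_hm_mon _ (k + 3) (by omega)]
    have e0 : 3 * h + 2 - k = d + 3 := by omega
    have e1 : 3 * h + 2 - (k + 1) = d + 2 := by omega
    have e2 : 3 * h + 2 - (k + 2) = d + 1 := by omega
    have e3 : 3 * h + 2 - (k + 3) = d := by omega
    have e4 : 3 * h - (k + 1) = d := by omega
    rw [e0, e1, e2, e3, e4]
    ring

/-- row LT -/
theorem LT : LT_stmt := by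
  intro h y hy
  have hy' : y = ∑ i ∈ range (3 * h + 1), C (y.coeff i) * X ^ i :=
    y.as_sum_range_C_mul_X_pow' (Nat.lt_succ_of_le hy)
  have hR : DA.hm (3 * h + 2) (Lop y) =
      ∑ i ∈ range (3 * h + 1), C (y.coeff i) * DA.hm (3 * h + 2) (Lop (X ^ i)) := by
    conv_lhs => rw [hy']
    rw [Lop_sum, LT_hm_sum]
    refine sum_congr rfl fun i _ => ?_
    rw [Lop_C_mul, LT_hm_C_mul]
  rw [hR, mul_sum]
  have hL : DA.hm (3 * h) y = ∑ i ∈ range (3 * h + 1), C (y.coeff i) *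
      ((X ^ 2 - 1) ^ i * (4 - X ^ 2) ^ (3 * h - i)) := rfl
  rw [hL, LT_Lam_sum]
  refine sum_congr rfl fun i hi => ?_
  have hi' : i ≤ 3 * h := Nat.lt_succ_iff.1 (mem_range.1 hi)
  rw [LT_Lam_C_mul]
  have h1 := LT_rhs h i hi'
  have h2 : th ((X ^ 2 - 1) ^ i * (4 - X ^ 2) ^ (3 * h - i) : ℤ[X]) =
      (6 * X * (C (h : ℤ) * (X ^ 2 - 1) - C (i : ℤ))) *
        ((X ^ 2 - 1) ^ i * (4 - X ^ 2) ^ (3 * h - i)) := by
    rw [LT_tau]
    have h3 : ((3 * h - i : ℕ) : ℤ) = 3 * (h : ℤ) - i := by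
      rw [Nat.cast_sub hi']
      push_cast
      rfl
    rw [h3]
    simp only [C_mul, C_sub, map_ofNat]
    ring
  have h3 := LT_exp (2 * (h : ℤ) + 1) _ _ h2
  have h4 := LT_main (i : ℤ) (h : ℤ)
  simp only at h4
  rw [h4] at h3
  rw [h3]
  linear_combination (2 * X * C (y.coeff i)) * h1

end Pool.Agent.helper60.DB
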